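import Pool.Agent.helper81.PL.SpecA

/-! # bs:CND (helper46): conditional -/

set_option autoImplicit false
set_option linter.dupNamespace false
set_option linter.unusedVariables false

namespace Pool.Agent.helper81.PL

open Pool.Agent.helper62 Prog Function

theorem CND_pos {α : Type} [Rep α] (a : α) : 1 ≤ sz a := by
  unfold sz cd
  cases Rep.rep a <;> simp [Tr.code]

theorem CND (hD : DUP_stmt) : CND_stmt := by
  refine ⟨22, ?_⟩
  intro α β _ _ r f g t t1 t2 hr hf hg b
  obtain ⟨R, hR⟩ := hr (b + 1)
  obtain ⟨P, hP⟩ := hf b
  obtain ⟨Q, hQ⟩ := hg b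
  refine ⟨.seq (dup b (b + 1)) (.seq R (.ifp (b + 1) .skip Q (.seq (clear (b + 1)) P))), ?_⟩
  intro a S hS hi
  have h0 := hi (b + 1) (by omega)
  have h1 := hD b (b + 1) S (by omega) h0 (hi _ (by omega))
  rw [hS] at h1
  have h2 := hR a (update S (b + 1) (cd a)) (by simp) (fun i hib => by
    rw [update_of_ne (by omega)]; exact hi i (by omega))
  rw [update_idem] at h2
  have hpos := CND_pos a
  have e1 : (cd a).length = sz a := rfl
  rw [e1] at h1
  have hback : update S (b + 1) [] = S := by rw [← h0, update_eq_self]
  cases hra : r a with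
  | false =>
    rw [hra] at h2
    have e2 : cd false = [false] := rfl
    rw [e2] at h2
    have h3 := hQ a S hS hi
    have h4 : Runs (.ifp (b + 1) .skip Q (.seq (clear (b + 1)) P)) (update S (b + 1) [false])
        (update S b (cd (g a))) (1 + t2 a) := by
      refine Runs.ifp (b := false) (l := []) (by simp) ?_
      rw [update_idem, hback]
      exact h3
    refine (h1.seq (h2.seq h4)).mono' ?_ ?_
    · simp [hra]
    · simp only [hra, cond_false]; omega
  | true =>
    rw [hra] at h2
    have e2 : cd true = [true, false, false] := rfl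
    rw [e2] at h2
    have h3 := hP a S hS hi
    have h4 : Runs (.ifp (b + 1) .skip Q (.seq (clear (b + 1)) P))
        (update S (b + 1) [true, false, false]) (update S b (cd (f a))) (1 + (5 + t1 a)) := by
      refine Runs.ifp (b := true) (l := [false, false]) (by simp) ?_
      rw [update_idem]
      have h5 := Runs.clear (k := b + 1) [false, false] (update S (b + 1) [false, false]) (by simp)
      rw [update_idem, hback] at h5
      exact h5.seq h3
    refine (h1.seq (h2.seq h4)).mono' ?_ ?_
    · simp [hra]
    · simp only [hra, cond_true]; omega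

end Pool.Agent.helper81.PL
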